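import Pool.Agent.Helper92.Ru.GoalsV

/-! P6: embeddings and infinite places. -/

set_option autoImplicit false

open NumberField

namespace Pool.Agent.Helper87.Ru

open Pool.Agent.Helper92.Ru

theorem comap_of_mem {k L : Type} [Field k] [NumberField k] [Field L] [NumberField L]
    [Algebra k L] (v : InfinitePlace k) (ρ : AbE L v) :
    (InfinitePlace.mk ρ.1).comap (algebraMap k L) = v := by
  rw [InfinitePlace.comap_mk, ρ.2, InfinitePlace.mk_embedding]

/-- the place attached to an embedding -/
noncomputable def toI {k L : Type} [Field k] [NumberField k] [Field L] [NumberField L]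
    [Algebra k L] (v : InfinitePlace k) (ρ : AbE L v) : AbI L v :=
  ⟨InfinitePlace.mk ρ.1, comap_of_mem v ρ⟩

theorem conj_comp {k L : Type} [Field k] [Field L] [Algebra k L] (ρ : L →+* ℂ) :
    (ComplexEmbedding.conjugate ρ).comp (algebraMap k L) =
      ComplexEmbedding.conjugate (ρ.comp (algebraMap k L)) := rfl

theorem restr_or {k L : Type} [Field k] [NumberField k] [Field L] [NumberField L]
    [Algebra k L] (v : InfinitePlace k) (w : AbI L v) (φ : L →+* ℂ)
    (hφ : InfinitePlace.mk φ = w.1) :
    φ.comp (algebraMap k L) = v.embedding ∨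
      (ComplexEmbedding.conjugate φ).comp (algebraMap k L) = v.embedding := by
  have h1 : InfinitePlace.mk (φ.comp (algebraMap k L)) = InfinitePlace.mk v.embedding := by
    rw [← InfinitePlace.comap_mk, hφ, w.2, InfinitePlace.mk_embedding]
  rcases InfinitePlace.mk_eq_iff.1 h1 with h | h
  · exact Or.inl h
  · exact Or.inr h

theorem fib_card {k L : Type} [Field k] [NumberField k] [Field L] [NumberField L]
    [Algebra k L] (v : InfinitePlace k) (w : AbI L v) [DecidableEq (AbI L v)] :
    (Finset.univ.filter (fun ρ : AbE L v => toI v ρ = w)).card * v.mult = w.1.mult := by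
  classical
  rcases InfinitePlace.isReal_or_isComplex v with hv | hv
  · rw [hv.mult_eq_one, mul_one, ← InfinitePlace.card_filter_mk_eq w.1]
    refine Finset.card_bij (fun ρ _ => ρ.1) ?_ ?_ ?_
    · intro ρ hρ
      simp only [Finset.mem_filter, Finset.mem_univ, true_and] at hρ ⊢
      exact congrArg Subtype.val hρ
    · intro a _ b _ h
      exact Subtype.ext h
    · intro φ hφ
      simp only [Finset.mem_filter, Finset.mem_univ, true_and] at hφ
      have hφ2 : φ.comp (algebraMap k L) = v.embedding := by
        rcases restr_or v w φ hφ with h | h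
        · exact h
        · rw [conj_comp] at h
          have h3 := congrArg ComplexEmbedding.conjugate h
          rw [InfinitePlace.conjugate_embedding_eq_of_isReal hv] at h3
          rw [← h3]
          exact (star_star _).symm
      refine ⟨⟨φ, hφ2⟩, ?_, rfl⟩
      simp only [Finset.mem_filter, Finset.mem_univ, true_and]
      exact Subtype.ext hφ
  · have hw : InfinitePlace.IsComplex w.1 := by
      apply InfinitePlace.IsComplex.of_comap (algebraMap k L)
      rw [w.2]
      exact hv
    rw [hv.mult_eq_two, hw.mult_eq_two]
    have hne : ComplexEmbedding.conjugate v.embedding ≠ v.embedding := by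
      intro h
      exact (InfinitePlace.isComplex_iff.1 hv) h
    have hex : ∃ ρ : AbE L v, toI v ρ = w := by
      rcases restr_or v w w.1.embedding (InfinitePlace.mk_embedding _) with h | h
      · exact ⟨⟨_, h⟩, Subtype.ext (InfinitePlace.mk_embedding _)⟩
      · refine ⟨⟨_, h⟩, Subtype.ext ?_⟩
        change InfinitePlace.mk (ComplexEmbedding.conjugate w.1.embedding) = w.1
        rw [InfinitePlace.mk_conjugate_eq, InfinitePlace.mk_embedding]
    obtain ⟨ρ, hρ⟩ := hex
    have h1 : (Finset.univ.filter (fun ρ : AbE L v => toI v ρ = w)) = {ρ} := by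
      ext ρ'
      simp only [Finset.mem_filter, Finset.mem_univ, true_and, Finset.mem_singleton]
      constructor
      · intro h
        have h2 : InfinitePlace.mk ρ'.1 = InfinitePlace.mk ρ.1 :=
          congrArg Subtype.val (h.trans hρ.symm)
        rcases InfinitePlace.mk_eq_iff.1 h2 with h3 | h3
        · exact Subtype.ext h3
        · exfalso
          apply hne
          rw [← ρ'.2, ← conj_comp, h3, ρ.2, ρ'.2]
      · rintro rfl
        exact hρ
    rw [h1, Finset.card_singleton, one_mul]

theorem infProd : InfProd := by
  intro k _ _ L _ _ _ v F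
  classical
  rw [← Finset.prod_fiberwise Finset.univ (toI v)]
  refine Finset.prod_congr rfl ?_
  intro w _
  rw [← fib_card v w, mul_comm, pow_mul]
  have h : ∀ ρ ∈ Finset.univ.filter (fun ρ : AbE L v => toI v ρ = w),
      F (InfinitePlace.mk ρ.1) ^ v.mult = F w.1 ^ v.mult := by
    intro ρ hρ
    simp only [Finset.mem_filter, Finset.mem_univ, true_and] at hρ
    rw [← hρ]
    rfl
  rw [Finset.prod_congr rfl h, Finset.prod_const]

end Pool.Agent.Helper87.Ru
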