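import Pool.Agent.Helper92.Ru.GoalsH
import Pool.Agent.Helper96.Ru.HeightLocal

/-!
# Height of a polynomial with integral coefficients
-/

set_option autoImplicit false

open NumberField MvPolynomial

namespace Pool.Agent.Helper87.Ru

open Pool.Agent.Helper92.Ru

theorem pHBound : PHBound := by
  intro k _ _ σ p C hC hint hbd
  have h := Pool.Agent.Helper96.Ru.heightLocal k p.support Unit
    (fun e : p.support => coeff e.1 p) (fun _ => 1) 0 C
    (by
      intro h0
      have := congrFun h0 ()
      simp at this) hC
    (fun v i => by
      rw [pow_zero, mul_one]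
      exact hbd v i.1 i.2)
    (fun v i => by
      rw [pow_zero]
      obtain ⟨a, ha⟩ := hint i.1 i.2
      simp only [ha]
      rw [← FinitePlace.norm_embedding_eq]
      exact FinitePlace.norm_le_one (K := k) v.maximalIdeal a)
  rw [pow_zero, mul_one] at h
  exact h

end Pool.Agent.Helper87.Ru
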