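import Pool.Agent.Helper92.Ru.GoalsS

/-!
# Davenport's permutation
-/

set_option autoImplicit false

open NumberField

namespace Pool.Agent.Helper87.Ru

open Pool.Agent.Helper92.Ru

section

variable {k : Type} [Field k] {ι : Type} [Fintype ι] [DecidableEq ι] {N : ℕ}

/-- span of the first `m` vectors -/
def TT (z : Fin N → ι → k) (m : ℕ) : Submodule k (ι → k) :=
  Submodule.span k (z '' {j | j.val < m})

theorem TT_mono (z : Fin N → ι → k) {m m' : ℕ} (h : m ≤ m') : TT z m ≤ TT z m' := by
  unfold TT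
  exact Submodule.span_mono (Set.image_mono (fun j hj => lt_of_lt_of_le hj h))

theorem TT_finrank (z : Fin N → ι → k) (m : ℕ) : Module.finrank k (TT z m) ≤ m := by
  classical
  unfold TT
  have h1 : z '' {j | j.val < m} = ((Finset.univ.filter (fun j : Fin N => j.val < m)).image z :
      Finset (ι → k)) := by
    simp
  rw [h1]
  refine (finrank_span_finset_le_card _).trans (Finset.card_image_le.trans ?_)
  calc (Finset.univ.filter (fun j : Fin N => j.val < m)).card
      = ((Finset.univ.filter (fun j : Fin N => j.val < m)).image Fin.val).card :=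
        (Finset.card_image_of_injective _ Fin.val_injective).symm
    _ ≤ (Finset.range m).card := by
        apply Finset.card_le_card
        intro x hx
        rw [Finset.mem_image] at hx
        obtain ⟨j, hj, rfl⟩ := hx
        rw [Finset.mem_range]
        exact (Finset.mem_filter.1 hj).2
    _ = m := Finset.card_range m

theorem step (v : AbsoluteValue k ℝ) (w : ι → ℝ) (hw : ∀ i, 0 < w i) (z : Fin N → ι → k) (m : ℕ)
    (A : Finset ι) (hA : A.card = m + 1) :
    ∃ i0 ∈ A, ∀ y ∈ TT z m, v (y i0) / w i0 ≤ ∑ i ∈ A.erase i0, v (y i) / w i := by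
  classical
  set r : (ι → k) →ₗ[k] ({x // x ∈ A} → k) :=
    LinearMap.funLeft k k (Subtype.val : {x // x ∈ A} → ι) with hr
  have hp : (TT z m).map r < ⊤ := by
    rw [lt_top_iff_ne_top]
    intro h
    have h1 : Module.finrank k ((TT z m).map r) ≤ m :=
      (Submodule.finrank_map_le r _).trans (TT_finrank z m)
    rw [h, finrank_top, Module.finrank_fintype_fun_eq_card, Fintype.card_coe, hA] at h1
    omega
  obtain ⟨f, hf0, hf⟩ := Submodule.exists_le_ker_of_lt_top _ hp
  set b : {x // x ∈ A} → k := fun i => f (fun j => if i = j then 1 else 0) with hb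
  have hfb : ∀ x : {x // x ∈ A} → k, f x = ∑ i, x i * b i := by
    intro x
    rw [LinearMap.pi_apply_eq_sum_univ f x]
    simp only [smul_eq_mul, hb]
  have hbne : ∃ i, b i ≠ 0 := by
    by_contra h
    push Not at h
    apply hf0
    apply LinearMap.ext
    intro x
    rw [hfb]
    simp [h]
  obtain ⟨i1, hi1⟩ := hbne
  obtain ⟨i0, _, hi0⟩ := Finset.exists_max_image Finset.univ (fun i => v (b i) * w i.1)
    ⟨i1, Finset.mem_univ _⟩
  have hpos : 0 < v (b i0) * w i0.1 := by
    have h1 : 0 < v (b i1) * w i1.1 := mul_pos (v.pos hi1) (hw _)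
    exact h1.trans_le (hi0 i1 (Finset.mem_univ _))
  have hvb : 0 < v (b i0) := by
    rcases lt_or_eq_of_le (v.nonneg (b i0)) with h | h
    · exact h
    · rw [← h, zero_mul] at hpos
      exact absurd hpos (lt_irrefl _)
  refine ⟨i0.1, i0.2, fun y hy => ?_⟩
  have h1 : ∑ i : {x // x ∈ A}, y i.1 * b i = 0 := by
    have h2 : r y ∈ (TT z m).map r := Submodule.mem_map_of_mem hy
    have h3 := hf h2
    rw [LinearMap.mem_ker, hfb] at h3
    exact h3
  have h2 : y i0.1 * b i0 = -∑ i ∈ Finset.univ.erase i0, y i.1 * b i := by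
    rw [← Finset.add_sum_erase _ _ (Finset.mem_univ i0)] at h1
    linear_combination h1
  have h3 : v (y i0.1) * v (b i0) ≤ ∑ i ∈ Finset.univ.erase i0, v (y i.1) * v (b i) := by
    rw [← v.map_mul, h2, v.map_neg]
    refine (v.sum_le _ _).trans (le_of_eq ?_)
    simp only [v.map_mul]
  have h4 : ∑ i ∈ Finset.univ.erase i0, v (y i.1) * v (b i)
      ≤ ∑ i ∈ Finset.univ.erase i0, (v (y i.1) / w i.1) * (v (b i0) * w i0.1) := by
    apply Finset.sum_le_sum
    intro i _
    have h5 := hi0 i (Finset.mem_univ _)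
    have h6 : v (y i.1) * v (b i) = (v (y i.1) / w i.1) * (v (b i) * w i.1) := by
      have := (hw i.1).ne'
      field_simp
    rw [h6]
    exact mul_le_mul_of_nonneg_left h5 (div_nonneg (v.nonneg _) (hw _).le)
  rw [← Finset.sum_mul] at h4
  have h5 : ∑ i ∈ Finset.univ.erase i0, v (y i.1) / w i.1 = ∑ i ∈ A.erase i0.1, v (y i) / w i := by
    have h6 := Finset.sum_coe_sort A (fun i => v (y i) / w i)
    have h7 := Finset.add_sum_erase A (fun i => v (y i) / w i) i0.2
    have h8 := Finset.add_sum_erase Finset.univ (fun i : {x // x ∈ A} => v (y i.1) / w i.1)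
      (Finset.mem_univ i0)
    have h9 : ∑ i : {x // x ∈ A}, v (y i.1) / w i.1 = ∑ i ∈ A, v (y i) / w i := h6
    linarith
  rw [h5] at h4
  rw [div_le_iff₀ (hw _)]
  have h6 := h3.trans h4
  have h7 : v (y i0.1) * v (b i0)
      ≤ ((∑ i ∈ A.erase i0.1, v (y i) / w i) * w i0.1) * v (b i0) := by
    linarith
  exact le_of_mul_le_mul_right h7 hvb

theorem chain (v : AbsoluteValue k ℝ) (w : ι → ℝ) (hw : ∀ i, 0 < w i) (z : Fin N → ι → k)
    [Nonempty ι] (m : ℕ) : ∀ A : Finset ι, A.card = m → ∃ π : ℕ → ι,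
      (∀ l < m, π l ∈ A) ∧ (∀ l < m, ∀ l' < m, π l = π l' → l = l') ∧
      (∀ F : ι → ℝ, ∑ l ∈ Finset.range m, F (π l) = ∑ i ∈ A, F i) ∧
      ∀ j < m, ∀ y ∈ TT z (j + 1), ∑ i ∈ A, v (y i) / w i
        ≤ 2 ^ m * ∑ l ∈ Finset.range (j + 1), v (y (π l)) / w (π l) := by
  induction m with
  | zero =>
    intro A hA
    rw [Finset.card_eq_zero] at hA
    subst hA
    refine ⟨fun _ => Classical.arbitrary ι, by simp, by simp, by simp, by simp⟩
  | succ m ih =>
    intro A hA
    obtain ⟨i0, hi0, hst⟩ := step v w hw z m A hA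
    obtain ⟨π, h1, h2, h3, h4⟩ := ih (A.erase i0) (by rw [Finset.card_erase_of_mem hi0, hA]; rfl)
    have hπ : ∀ l, l < m → (if l < m then π l else i0) = π l := fun l hl => if_pos hl
    have hπm : (if m < m then π m else i0) = i0 := if_neg (lt_irrefl m)
    have hF : ∀ F : ι → ℝ, ∑ l ∈ Finset.range (m + 1), F (if l < m then π l else i0)
        = ∑ i ∈ A, F i := by
      intro F
      rw [Finset.sum_range_succ, hπm, ← Finset.sum_erase_add A _ hi0, ← h3 F]
      congr 1
      apply Finset.sum_congr rfl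
      intro l hl
      rw [hπ l (Finset.mem_range.1 hl)]
    refine ⟨fun l => if l < m then π l else i0, ?_, ?_, hF, ?_⟩
    · intro l hl
      by_cases h : l < m
      · simp only [if_pos h]
        exact Finset.mem_of_mem_erase (h1 l h)
      · simp only [if_neg h]
        exact hi0
    · intro l hl l' hl' hll
      by_cases h : l < m <;> by_cases h' : l' < m
      · simp only [if_pos h, if_pos h'] at hll
        exact h2 l h l' h' hll
      · simp only [if_pos h, if_neg h'] at hll
        have := h1 l h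
        rw [hll] at this
        exact absurd rfl (Finset.ne_of_mem_erase this)
      · simp only [if_neg h, if_pos h'] at hll
        have := h1 l' h'
        rw [← hll] at this
        exact absurd rfl (Finset.ne_of_mem_erase this)
      · omega
    · intro j hj y hy
      have hnn : ∀ i, 0 ≤ v (y i) / w i := fun i => div_nonneg (v.nonneg _) (hw i).le
      rcases Nat.lt_succ_iff_lt_or_eq.1 hj with hj' | hj'
      · have h5 := h4 j hj' y hy
        have h6 := hst y (TT_mono z (by omega) hy)
        have h7 : ∑ l ∈ Finset.range (j + 1),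
            v (y (if l < m then π l else i0)) / w (if l < m then π l else i0)
            = ∑ l ∈ Finset.range (j + 1), v (y (π l)) / w (π l) := by
          apply Finset.sum_congr rfl
          intro l hl
          have hl' := Finset.mem_range.1 hl
          rw [hπ l (by omega)]
        rw [h7, ← Finset.sum_erase_add A _ hi0, pow_succ]
        linarith
      · subst hj'
        rw [hF (fun i => v (y i) / w i)]
        have h5 : 0 ≤ ∑ i ∈ A, v (y i) / w i := Finset.sum_nonneg (fun i _ => hnn i)
        have h6 : (1 : ℝ) ≤ 2 ^ (j + 1) := one_le_pow₀ (by norm_num)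
        exact le_mul_of_one_le_left h5 h6

end

theorem dav : Dav := by
  intro N
  refine ⟨2 ^ N * (N + 1), ?_, ?_⟩
  · have h1 : (1 : ℝ) ≤ 2 ^ N := one_le_pow₀ (by norm_num)
    have h2 : (0 : ℝ) ≤ N := Nat.cast_nonneg _
    nlinarith
  intro k _ _ v ι _ _ hN w hw z _
  rcases Nat.eq_zero_or_pos N with h0 | h0
  · subst h0
    haveI : IsEmpty ι := Fintype.card_eq_zero_iff.1 hN
    exact ⟨Equiv.equivOfIsEmpty _ _, fun j => j.elim0⟩
  haveI : Nonempty ι := Fintype.card_pos_iff.1 (by omega)
  obtain ⟨π, _, h2, _, h4⟩ := chain v.1 w hw z N Finset.univ (by rw [Finset.card_univ, hN])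
  have hinj : Function.Injective (fun j : Fin N => π j.val) := by
    intro a b hab
    exact Fin.ext (h2 a.val a.isLt b.val b.isLt hab)
  have hbij : Function.Bijective (fun j : Fin N => π j.val) :=
    (Fintype.bijective_iff_injective_and_card _).2 ⟨hinj, by rw [Fintype.card_fin, hN]⟩
  refine ⟨Equiv.ofBijective _ hbij, fun j y hy i => ?_⟩
  have hy' : y ∈ TT z (j.val + 1) := by
    unfold TT
    have : {j' : Fin N | j'.val < j.val + 1} = {j' | j' ≤ j} := by
      ext j'
      simp only [Set.mem_setOf_eq]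
      rw [Nat.lt_succ_iff, Fin.le_def]
    rw [this]
    exact hy
  have h5 := h4 j.val j.isLt y hy'
  have hnn : ∀ i, 0 ≤ v.1 (y i) / w i := fun i => div_nonneg (v.1.nonneg _) (hw i).le
  have h6 : v.1 (y i) / w i ≤ ∑ i, v.1 (y i) / w i :=
    Finset.single_le_sum (f := fun i => v.1 (y i) / w i) (fun i _ => hnn i) (Finset.mem_univ i)
  by_contra hno
  push Not at hno
  have h7 : ∀ l ∈ Finset.range (j.val + 1),
      2 ^ N * (N + 1) * (v.1 (y (π l)) / w (π l)) < v.1 (y i) / w i := by
    intro l hl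
    have hl' := Finset.mem_range.1 hl
    have hlN : l < N := by
      have := j.isLt
      omega
    have h8 := hno ⟨l, hlN⟩ (by rw [Fin.le_def]; exact Nat.lt_succ_iff.1 hl')
    exact h8
  have h8 : ∑ l ∈ Finset.range (j.val + 1), 2 ^ N * (N + 1) * (v.1 (y (π l)) / w (π l))
      < ∑ _l ∈ Finset.range (j.val + 1), v.1 (y i) / w i :=
    Finset.sum_lt_sum_of_nonempty ⟨0, by simp⟩ h7
  rw [← Finset.mul_sum, Finset.sum_const, Finset.card_range, nsmul_eq_mul] at h8
  have h9 : ((j.val + 1 : ℕ) : ℝ) * (v.1 (y i) / w i) ≤ ((N : ℝ) + 1) * (v.1 (y i) / w i) := by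
    apply mul_le_mul_of_nonneg_right _ (hnn i)
    push_cast
    have : (j.val : ℝ) ≤ N := by exact_mod_cast j.isLt.le
    linarith
  have h10 : (2 : ℝ) ^ N * (N + 1) * ∑ l ∈ Finset.range (j.val + 1), v.1 (y (π l)) / w (π l)
      = ((N : ℝ) + 1) * (2 ^ N * ∑ l ∈ Finset.range (j.val + 1), v.1 (y (π l)) / w (π l)) := by
    ring
  have h11 : ((N : ℝ) + 1) * (v.1 (y i) / w i)
      ≤ ((N : ℝ) + 1) * (2 ^ N * ∑ l ∈ Finset.range (j.val + 1), v.1 (y (π l)) / w (π l)) :=
    mul_le_mul_of_nonneg_left (h6.trans h5) (by positivity)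
  linarith

end Pool.Agent.Helper87.Ru
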