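import Pool.Agent.Helper92.Ru.GoalsS

/-!
# The subspace theorem for S-integral points from the finiteness of subspaces with a gap
-/

set_option autoImplicit false

open NumberField Filter

namespace Pool.Agent.Helper87.Ru

open Pool.Agent.Helper92.Ru

theorem HH_nonneg {k : Type} [Field k] [NumberField k] {T : Finset (FinitePlace k)} {ι : Type}
    [Fintype ι] (A : SP k T → Matrix ι ι k) (w : SP k T → ι → ℝ) (hw : ∀ v i, 0 < w v i)
    (x : ι → k) : 0 ≤ HH A w x := by
  unfold HH
  refine Finset.prod_nonneg (fun v _ => Real.iSup_nonneg (fun i => ?_))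
  exact div_nonneg (nS_nonneg v _) (hw v i).le

theorem HH_le_one {k : Type} [Field k] [NumberField k] {T : Finset (FinitePlace k)} {ι : Type}
    [Fintype ι] [Nonempty ι] (A : SP k T → Matrix ι ι k) (w : SP k T → ι → ℝ)
    (hw : ∀ v i, 0 < w v i) (x : ι → k) (hx : InBox A w x) : HH A w x ≤ 1 := by
  unfold HH
  refine Finset.prod_le_one (fun v _ => Real.iSup_nonneg (fun i => ?_)) (fun v _ => ?_)
  · exact div_nonneg (nS_nonneg v _) (hw v i).le
  · refine ciSup_le (fun i => ?_)
    rw [div_le_one (hw v i)]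
    exact hx.2 v i

theorem sstint (hDet : DetLB) (hGr : GreedyEx) (hGap : GapAll) : SSTint := by
  intro k _ _ T N hN A hA e he
  classical
  haveI hne : Nonempty (Fin N) := ⟨⟨0, hN⟩⟩
  obtain ⟨C, hC, hdet⟩ := hDet k T (Fin N) A hA
  set δ : ℝ := -(∑ v, ∑ i, e v i) with hδ
  have hδ0 : 0 < δ := by linarith
  have hNr : (1 : ℝ) ≤ N := by exact_mod_cast hN
  set B : ℝ := ∑ v, ∑ i, |e v i| with hB
  have heB : ∀ v i, |e v i| ≤ B := by
    intro v i
    calc |e v i| ≤ ∑ i, |e v i| :=
          Finset.single_le_sum (fun i _ => abs_nonneg (e v i)) (Finset.mem_univ i)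
      _ ≤ B := Finset.single_le_sum (f := fun v => ∑ i, |e v i|)
          (fun v _ => Finset.sum_nonneg (fun i _ => abs_nonneg (e v i))) (Finset.mem_univ v)
  set δ1 : ℝ := δ / (2 * N ^ 2) with hδ1
  have hδ10 : 0 < δ1 := by positivity
  obtain ⟨Q1, hQ1, hfin⟩ := hGap k T N A hA B (δ1 / 2) (half_pos hδ10)
  have e1 : ∀ᶠ Q : ℝ in atTop, C * 2 ^ N < Q ^ (δ / 2) :=
    (tendsto_rpow_atTop (half_pos hδ0)).eventually_gt_atTop _
  have e2 : ∀ᶠ Q : ℝ in atTop, 2 ≤ Q ^ (δ1 / 2) :=
    (tendsto_rpow_atTop (half_pos hδ10)).eventually_ge_atTop _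
  obtain ⟨Q0, hQ0⟩ := eventually_atTop.1 (e1.and (e2.and (eventually_ge_atTop Q1)))
  refine ⟨max Q0 1, insert ⊥ hfin.toFinset, le_max_right _ _, ?_, ?_⟩
  · intro W hW
    rw [Finset.mem_insert, Set.Finite.mem_toFinset] at hW
    rcases hW with rfl | hW
    · exact bot_ne_top
    · exact hW.1
  intro Q hQ x hx
  obtain ⟨hQa, hQb, hQc⟩ := hQ0 Q ((le_max_left _ _).trans hQ)
  have hQ1' : 1 ≤ Q := (le_max_right _ _).trans hQ
  have hQpos : 0 < Q := by linarith
  by_cases hx0 : x = 0
  · refine ⟨⊥, Finset.mem_insert_self _ _, ?_⟩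
    rw [hx0]
    exact Submodule.zero_mem _
  have hw : ∀ v i, 0 < wQ Q e v i := fun v i => Real.rpow_pos_of_pos hQpos _
  obtain ⟨z, hz⟩ := hGr k T (Fin N) A hA (wQ Q e) hw
  obtain ⟨hzi, hzS, hzg⟩ := hz
  set la : Fin (Fintype.card (Fin N)) → ℝ := fun j => HH A (wQ Q e) (z j) with hla
  have hla0 : ∀ j, 0 ≤ la j := fun j => HH_nonneg A _ hw _
  have hHx : HH A (wQ Q e) x ≤ 1 := HH_le_one A _ hw x hx
  have hwprod : ∏ v, ∏ i, wQ Q e v i = Q ^ (-δ) := by
    unfold wQ
    rw [hδ, neg_neg, Real.rpow_sum_of_pos hQpos]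
    refine Finset.prod_congr rfl (fun v _ => ?_)
    rw [Real.rpow_sum_of_pos hQpos]
  have hd := hdet (wQ Q e) hw (Fin (Fintype.card (Fin N))) (by simp) z hzi hzS
  rw [hwprod] at hd
  set G : ℝ := Q ^ δ1 with hG
  have hG1 : 1 ≤ G := Real.one_le_rpow hQ1' hδ10.le
  -- a jump
  have hjump : ∃ j : Fin (Fintype.card (Fin N)), 0 < j.val ∧
      ∀ j' : Fin (Fintype.card (Fin N)), j' < j → G * max (la j') 2 ≤ la j := by
    by_contra hno
    push Not at hno
    have key : ∀ m : ℕ, ∀ j : Fin (Fintype.card (Fin N)), j.val = m → la j ≤ 2 * G ^ m := by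
      intro m
      induction m using Nat.strong_induction_on with
      | _ m ih =>
        intro j hj
        rcases Nat.eq_zero_or_pos m with h0 | h0
        · rw [h0, pow_zero, mul_one]
          have h1 : x ∉ Submodule.span k (z '' {j' | j' < j}) := by
            have h2 : {j' : Fin (Fintype.card (Fin N)) | j' < j} = ∅ := by
              ext j'
              simp only [Set.mem_setOf_eq, Set.mem_empty_iff_false, iff_false, not_lt]
              rw [Fin.le_def]
              omega
            rw [h2, Set.image_empty, Submodule.span_empty]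
            simpa using hx0
          have h3 := hzg j x hx.1 h1
          have h4 : la j ≤ 2 * HH A (wQ Q e) x := h3
          linarith
        · obtain ⟨j', hj', h1⟩ := hno j (by omega)
          have h2 : j'.val < m := by
            have := Fin.lt_def.1 hj'
            omega
          have h3 := ih j'.val h2 j' rfl
          have h4 : max (la j') 2 ≤ 2 * G ^ j'.val := by
            refine max_le h3 ?_
            have := one_le_pow₀ hG1 (n := j'.val)
            linarith
          calc la j ≤ G * max (la j') 2 := h1.le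
            _ ≤ G * (2 * G ^ j'.val) := mul_le_mul_of_nonneg_left h4 (by linarith)
            _ = 2 * G ^ (j'.val + 1) := by ring
            _ ≤ 2 * G ^ m := by
                have := pow_le_pow_right₀ hG1 (show j'.val + 1 ≤ m by omega)
                linarith
    have h1 : ∀ j, la j ≤ 2 * G ^ N := by
      intro j
      refine (key j.val j rfl).trans ?_
      have h2 : j.val ≤ N := by
        have h5 := j.isLt
        have h6 : Fintype.card (Fin N) = N := Fintype.card_fin N
        omega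
      have := pow_le_pow_right₀ hG1 h2
      linarith
    have h2 : ∏ j, la j ≤ (2 * G ^ N) ^ N := by
      have h3 : ∏ j, la j ≤ ∏ _j : Fin (Fintype.card (Fin N)), (2 * G ^ N) :=
        Finset.prod_le_prod (fun j _ => hla0 j) (fun j _ => h1 j)
      rw [Finset.prod_const, Finset.card_univ] at h3
      have h4 : Fintype.card (Fin (Fintype.card (Fin N))) = N := by simp
      rw [h4] at h3
      exact h3
    have h3 : (2 * G ^ N) ^ N = 2 ^ N * Q ^ (δ / 2) := by
      rw [mul_pow, ← pow_mul, hG, ← Real.rpow_natCast (Q ^ δ1), ← Real.rpow_mul hQpos.le]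
      congr 2
      rw [hδ1]
      push_cast
      field_simp
    rw [h3] at h2
    have h4 : 1 ≤ C * Q ^ (-δ) * (2 ^ N * Q ^ (δ / 2)) :=
      hd.trans (mul_le_mul_of_nonneg_left h2 (by positivity))
    have h5 : C * Q ^ (-δ) * (2 ^ N * Q ^ (δ / 2)) = (C * 2 ^ N) * Q ^ (-(δ / 2)) := by
      have h6 : Q ^ (-δ) * Q ^ (δ / 2) = Q ^ (-(δ / 2)) := by
        rw [← Real.rpow_add hQpos]
        congr 1
        ring
      rw [← h6]
      ring
    rw [h5, Real.rpow_neg hQpos.le] at h4
    have h7 : 0 < Q ^ (δ / 2) := Real.rpow_pos_of_pos hQpos _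
    rw [← div_eq_mul_inv, le_div_iff₀ h7, one_mul] at h4
    linarith
  obtain ⟨j, hj0, hj⟩ := hjump
  set W : Submodule k (Fin N → k) := Submodule.span k (z '' {j' | j' < j}) with hW
  set R : ℝ := la j / G with hR
  have hGpos : 0 < G := by linarith
  have hRle : ∀ j' : Fin (Fintype.card (Fin N)), j' < j → max (la j') 2 ≤ R := by
    intro j' hj'
    rw [hR, le_div_iff₀ hGpos, mul_comm]
    exact hj j' hj'
  have hR2 : 2 ≤ R := by
    have h1 : (⟨0, by have := j.isLt; omega⟩ : Fin (Fintype.card (Fin N))) < j := by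
      rw [Fin.lt_def]
      exact hj0
    exact (le_max_right _ _).trans (hRle _ h1)
  have hWtop : W ≠ ⊤ := by
    intro h
    have h1 : z j ∉ Submodule.span k (z '' {j' | j' < j}) :=
      hzi.notMem_span_image (fun h2 => lt_irrefl j h2)
    apply h1
    rw [← hW, h]
    exact Submodule.mem_top
  have hGG : G = Q ^ (δ1 / 2) * Q ^ (δ1 / 2) := by
    rw [hG, ← Real.rpow_add hQpos]
    congr 1
    ring
  have hlaj : la j = R * G := by
    rw [hR]
    field_simp
  have hout : ∀ y : Fin N → k, SIntV T y → y ∉ W → R * Q ^ (δ1 / 2) ≤ HH A (wQ Q e) y := by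
    intro y hy hyW
    have h1 : la j ≤ 2 * HH A (wQ Q e) y := hzg j y hy hyW
    have h2 : 0 < Q ^ (δ1 / 2) := by linarith
    have h3 : R * Q ^ (δ1 / 2) * 2 ≤ R * Q ^ (δ1 / 2) * Q ^ (δ1 / 2) :=
      mul_le_mul_of_nonneg_left hQb (by positivity)
    rw [hlaj, hGG] at h1
    nlinarith
  have hgap : Pool.Agent.Helper92.Ru.Gap A (wQ Q e) R (Q ^ (δ1 / 2)) W := by
    refine ⟨?_, hout⟩
    rw [hW]
    refine Submodule.span_mono ?_
    rintro _ ⟨j', hj', rfl⟩
    refine ⟨Submodule.subset_span ⟨j', hj', rfl⟩, hzS j', ?_⟩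
    exact (le_max_left _ _).trans (hRle j' hj')
  refine ⟨W, ?_, ?_⟩
  · rw [Finset.mem_insert, Set.Finite.mem_toFinset]
    exact Or.inr ⟨hWtop, Q, e, R, hQc, heB, by linarith, hgap⟩
  · by_contra hxW
    have h1 := hout x hx.1 hxW
    nlinarith

end Pool.Agent.Helper87.Ru
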